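import Pool.Agent.W483.FB.Stm2

set_option autoImplicit false
set_option linter.unusedVariables false

/-!
# FB-16: the bound in terms of matrices
-/

open Finset Matrix Filter
open scoped Topology

namespace Pool.Agent.W930.FB

open Pool.Agent.W483.FB

/-- the entries of a conjugated diagonal matrix -/
lemma ent {n : ℕ} (a : Fin n → Fin n → ℝ) (x : Fin n → ℝ) (i l : Fin n) :
    ((Matrix.of a)ᵀ * Matrix.diagonal x * Matrix.of a) i l = ∑ j, x j * a j i * a j l := by
  rw [Matrix.mul_apply]
  refine Finset.sum_congr rfl fun j _ => ?_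
  rw [Matrix.mul_diagonal, Matrix.transpose_apply, Matrix.of_apply, Matrix.of_apply]
  ring

lemma orth_mul {n : ℕ} (a : Fin n → Fin n → ℝ) (ha : Orth a) :
    Matrix.of a * (Matrix.of a)ᵀ = 1 := by
  ext i j
  rw [Matrix.mul_apply, Matrix.one_apply]
  exact ha i j

theorem trh_of_orth (n : ℕ) (a : Fin n → Fin n → ℝ) (x : Fin n → ℝ) (ha : Orth a)
    (M : Matrix (Fin n) (Fin n) ℝ) (hM : ∀ i l, M i l = ∑ j, x j * a j i * a j l) :
    trh M = ∑ j, h (x j) := by
  have e : M = (Matrix.of a)ᵀ * (Matrix.diagonal x * Matrix.of a) := by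
    ext i l
    rw [← Matrix.mul_assoc, ent, hM]
  have hc : M.charpoly = ∏ i, (Polynomial.X - Polynomial.C (x i)) := by
    rw [e, Matrix.charpoly_mul_comm, Matrix.mul_assoc, orth_mul a ha, Matrix.mul_one,
      Matrix.charpoly_diagonal]
  unfold trh
  rw [hc]
  have h1 : (∏ i, (Polynomial.X - Polynomial.C (x i))) =
      (((Finset.univ : Finset (Fin n)).val.map x).map
        fun a => Polynomial.X - Polynomial.C a).prod := by
    rw [Multiset.map_map]
    rfl
  rw [h1, Polynomial.roots_multiset_prod_X_sub_C, Multiset.map_map]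
  rfl

lemma spec {n : ℕ} (M : Matrix (Fin n) (Fin n) ℝ) (hM : M.IsHermitian) :
    ∃ (a : Fin n → Fin n → ℝ) (x : Fin n → ℝ), Orth a ∧
      ∀ i l, M i l = ∑ j, x j * a j i * a j l := by
  refine ⟨fun j i => hM.eigenvectorBasis j i, hM.eigenvalues, ?_, ?_⟩
  · intro i j
    have h1 := orthonormal_iff_ite.1 hM.eigenvectorBasis.orthonormal j i
    rw [PiLp.inner_apply] at h1
    simp only [RCLike.inner_apply, conj_trivial] at h1
    rw [h1]
    by_cases hij : i = j
    · simp [hij]
    · rw [if_neg hij, if_neg (fun h => hij h.symm)]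
  · intro i l
    have h1 := hM.spectral_theorem
    conv_lhs => rw [h1]
    rw [Unitary.conjStarAlgAut_apply, Matrix.mul_apply]
    refine Finset.sum_congr rfl fun j _ => ?_
    rw [Matrix.mul_diagonal]
    simp only [Matrix.star_apply, Matrix.IsHermitian.eigenvectorUnitary_apply, Function.comp_apply,
      RCLike.ofReal_real_eq_id, id_eq, star_trivial, Unitary.coe_star]
    ring

/-- **FB-16** -/
theorem t_mat (hg : S_gen) : S_mat := by
  intro n Y hY hY1 δ hδ hY0
  obtain ⟨a, y, ha, hay⟩ := spec Y hY.isHermitian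
  have e : Y = (Matrix.of a)ᵀ * Matrix.diagonal y * Matrix.of a := by
    ext i l
    rw [ent, hay]
  have hAA := orth_mul a ha
  have hAA' : (Matrix.of a)ᵀ * Matrix.of a = 1 := mul_eq_one_comm.1 hAA
  -- quadratic forms
  have hq : ∀ j, Y.mulVec (a j) = y j • a j := by
    intro j
    funext i
    rw [Matrix.mulVec, dotProduct]
    simp_rw [hay, Finset.sum_mul]
    rw [Finset.sum_comm]
    have h1 : ∀ k, ∑ l, y k * a k i * a k l * a j l = y k * a k i * (if k = j then 1 else 0) := by
      intro k
      rw [← ha k j, Finset.mul_sum]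
      refine Finset.sum_congr rfl fun l _ => ?_
      ring
    simp_rw [h1]
    simp
  have hdot : ∀ j, a j ⬝ᵥ a j = 1 := by
    intro j
    have := ha j j
    rw [if_pos rfl] at this
    exact this
  have hy0 : ∀ j, 0 ≤ y j := by
    intro j
    have h1 := hY.dotProduct_mulVec_nonneg (a j)
    rw [hq j, dotProduct_smul, star_trivial, hdot j, smul_eq_mul, mul_one] at h1
    exact h1
  have hy1 : ∀ j, y j ≤ 1 := by
    intro j
    have h1 := hY1.dotProduct_mulVec_nonneg (a j)
    rw [Matrix.sub_mulVec, Matrix.one_mulVec, hq j, dotProduct_sub, dotProduct_smul, star_trivial,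
      hdot j, smul_eq_mul, mul_one] at h1
    linarith
  have hYY : ∀ i l, (Y * Y) i l = ∑ j, y j ^ 2 * a j i * a j l := by
    intro i l
    have h1 : Y * Y = (Matrix.of a)ᵀ * Matrix.diagonal (fun j => y j ^ 2) * Matrix.of a := by
      calc Y * Y = (Matrix.of a)ᵀ * Matrix.diagonal y * (Matrix.of a * (Matrix.of a)ᵀ) *
            Matrix.diagonal y * Matrix.of a := by
            conv_lhs => rw [e]
            simp only [Matrix.mul_assoc]
        _ = _ := by
            rw [hAA, Matrix.mul_one, Matrix.mul_assoc _ (Matrix.diagonal y) (Matrix.diagonal y),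
              Matrix.diagonal_mul_diagonal]
            congr 3
            funext j
            ring
    rw [h1, ent]
  have hsym : (Y * Y).IsHermitian := by
    have h1 : Yᴴ = Y := hY.isHermitian
    rw [Matrix.IsHermitian, Matrix.conjTranspose_mul, h1]
  have hsub : ((Y * Y).submatrix Fin.succ Fin.succ).IsHermitian := hsym.submatrix _
  obtain ⟨α, x', hα, hαx⟩ := spec _ hsub
  have hmain := hg n a (fun j => y j ^ 2) α x' ha hα (fun j => sq_nonneg _)
    (fun j => pow_le_one₀ (hy0 j) (hy1 j)) (by
      intro i l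
      rw [← hYY, ← hαx]
      rfl) δ hδ (by
      rw [← hY0, hay]
      refine Finset.sum_congr rfl fun j _ => ?_
      rw [Real.sqrt_sq (hy0 j)]
      ring)
  rw [trh_of_orth (n + 1) a (fun j => y j ^ 2) ha (Y * Y) hYY, trh_of_orth n α x' hα _ hαx]
  exact hmain

end Pool.Agent.W930.FB
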